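import Pool.Agent.L5helper8.LR.Dens

/-!
# The Lang–Rohrlich conjecture, with `gcd(a, q) = 1`, is false for almost all `q`

Let `F_q` be the field generated by `π` and the numbers `Γ(a / q)`, `1 ≤ a ≤ q - 1`, `gcd(a, q) = 1`. The question is whether
the transcendence degree of `F_q` is at least `1 + φ(q) / 2` for every `q > 2`. It is not: it is at most `3 = φ(14) / 2` for
`q = 14`, it is at most `φ(q) / 2` for all `q` outside a set of natural density zero, and the difference of
`1 + φ(q) / 2` and the transcendence degree is unbounded.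

Proof. Modulo the numbers which are algebraic over `ℚ(π)`, the function `[x]`, the class of `Γ(x)` for `0 < x < 1`, is an odd
distribution on `ℚ / ℤ`: `[-x] = -[x]` and `∑_(p y = x) [y] = [x]`. Let `q = p ^ k m` with a prime `p` not dividing `m`.
Summing over the `a` modulo `q`, prime to `p`, with `a ≡ b` modulo `m`, one obtains `∑ [a / q] = [b / m] - [p⁻¹ b / m]`. The
sum of this over the `b` in a coset of the group generated by `p` is zero. If `-1` is no power of `p` modulo `m`, this is a
relation between the generators of `F_q` which is not a consequence of the reflection formula; for `q = 14`, `p = 2` it is the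
identity `Γ(1/14) Γ(9/14) Γ(11/14) = 4 π^(3/2)`. By Fourier analysis on `(ℤ/q)ˣ` the classes `[a / q]` span a space whose
dimension is at most the number of the odd characters `χ` modulo `q` whose primitive character is different from `1` at all
prime divisors of `q`.
-/

set_option autoImplicit false

open Filter Topology

namespace Pool.Agent.Results.MP_274814_nt.FalseForAlmostAllQ

/-- the field `F_q` generated over `ℚ` by `π` and the numbers `Γ(a / q)`, `1 ≤ a ≤ q - 1`, `gcd(a, q) = 1` -/
noncomputable def F (q : ℕ) : IntermediateField ℚ ℂ :=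
  IntermediateField.adjoin ℚ ({(Real.pi : ℂ)} ∪ {z : ℂ | ∃ a : ℕ, 1 ≤ a ∧ a ≤ q - 1 ∧ Nat.gcd a q = 1 ∧
    z = Complex.Gamma ((a : ℂ) / (q : ℂ))})

/-- the number of the odd Dirichlet characters `χ` modulo `q` such that the primitive character which induces `χ` does not
take the value `1` at any prime divisor `p` of `q` -/
noncomputable def rank (q : ℕ) : ℕ :=
  {χ : DirichletCharacter ℂ q | χ.Odd ∧
    ∀ p : ℕ, p.Prime → p ∣ q → χ.primitiveCharacter (p : ZMod χ.conductor) ≠ 1}.ncard

/-- (1) The negation of Q1; for `q = 14` the transcendence degree is at most `3 = φ(14) / 2`. (2) The set of the `q` for which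
`q > 2` and `trdeg F_q ≤ φ(q) / 2` do not both hold has natural density zero. (3) The difference of `1 + φ(q) / 2` and
`trdeg F_q` is unbounded. (4) For every `q > 2`: `trdeg F_q ≤ 1 + rank q`, and `rank q < φ(q) / 2` if and only if
`q = p ^ k m` with a prime `p` not dividing `m`, `k > 0`, such that no power of `p` is congruent to `-1` modulo `m`. -/
theorem result :
    (∃ q : ℕ, 2 < q ∧ Algebra.trdeg ℚ (F q) ≤ ((q.totient / 2 : ℕ) : Cardinal)) ∧
    (Nat.totient 14 = 6 ∧ Algebra.trdeg ℚ (F 14) ≤ 3) ∧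
    Tendsto (fun N : ℕ => ({q : ℕ | q < N ∧ ¬ (2 < q ∧
      Algebra.trdeg ℚ (F q) ≤ ((q.totient / 2 : ℕ) : Cardinal))}.ncard : ℝ) / N) atTop (𝓝 0) ∧
    (∀ N : ℕ, ∃ q : ℕ, 2 < q ∧ Algebra.trdeg ℚ (F q) + (N : Cardinal) ≤ ((1 + q.totient / 2 : ℕ) : Cardinal)) ∧
    (∀ q : ℕ, 2 < q → Algebra.trdeg ℚ (F q) ≤ ((1 + rank q : ℕ) : Cardinal) ∧ rank q ≤ q.totient / 2 ∧
      (rank q < q.totient / 2 ↔ ∃ p k m : ℕ, p.Prime ∧ 0 < k ∧ ¬ p ∣ m ∧ q = p ^ k * m ∧
        ∀ n : ℕ, ¬ m ∣ p ^ n + 1)) := by
  have h14 : Nat.totient 14 = 6 := by decide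
  have hdef : ∀ q : ℕ, 2 < q → (∃ p, Pool.Agent.L5helper8.LR.Defect q p) →
      Algebra.trdeg ℚ (F q) ≤ ((q.totient / 2 : ℕ) : Cardinal) :=
    fun q hq h => Pool.Agent.L5helper8.LR.defect_trdeg q hq h
  have hF14 : Algebra.trdeg ℚ (F 14) ≤ 3 := by
    have := hdef 14 (by norm_num) ⟨2, Pool.Agent.L5helper8.LR.defect_14⟩
    rw [h14] at this
    exact_mod_cast this
  refine ⟨⟨14, by norm_num, hdef 14 (by norm_num) ⟨2, Pool.Agent.L5helper8.LR.defect_14⟩⟩, ⟨h14, hF14⟩,
    ?_, ?_, ?_⟩
  · classical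
    refine squeeze_zero (fun N => by positivity) (fun N => ?_)
      Pool.Agent.L5helper8.LR.no_defect_density
    refine div_le_div_of_nonneg_right ?_ (Nat.cast_nonneg N)
    have h1 : {q : ℕ | q < N ∧ ¬ (2 < q ∧ Algebra.trdeg ℚ (F q) ≤ ((q.totient / 2 : ℕ) : Cardinal))} ⊆
        (((Finset.range N).filter
          (fun q => ¬ (2 < q ∧ ∃ p, Pool.Agent.L5helper8.LR.Defect q p)) : Finset ℕ) : Set ℕ) := by
      rintro q ⟨hq, h⟩
      rw [Finset.mem_coe, Finset.mem_filter, Finset.mem_range]
      exact ⟨hq, fun h' => h ⟨h'.1, hdef q h'.1 h'.2⟩⟩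
    have h2 := Set.ncard_le_ncard h1 (Finset.finite_toSet _)
    rw [Set.ncard_coe_finset] at h2
    exact_mod_cast h2
  · exact fun N => Pool.Agent.L5helper8.LR.unbounded N
  · intro q hq
    refine ⟨Pool.Agent.L5helper8.LR.trdeg_le q hq, Pool.Agent.L5helper8.LR.rk_le q hq, ?_⟩
    have h0 := Pool.Agent.L5helper8.LR.rk_lt_iff q hq
    refine Iff.trans h0 ?_
    constructor
    · rintro ⟨p, hp, hpq, h⟩
      refine ⟨p, q.factorization p, ordCompl[p] q, hp,
        hp.factorization_pos_of_dvd (by omega) hpq, Nat.not_dvd_ordCompl hp (by omega),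
        (Nat.ordProj_mul_ordCompl_eq_self q p).symm, fun n hn => h n ?_⟩
      have h1 : ((p ^ n + 1 : ℕ) : ZMod (ordCompl[p] q)) = 0 := (ZMod.natCast_eq_zero_iff _ _).2 hn
      push_cast at h1
      exact eq_neg_of_add_eq_zero_left h1
    · rintro ⟨p, k, m, hp, hk, hpm, hqe, h⟩
      have hm0 : m ≠ 0 := by
        rintro rfl
        exact hpm (dvd_zero p)
      have hfac : q.factorization p = k := by
        rw [hqe, Nat.factorization_mul (pow_ne_zero _ hp.ne_zero) hm0, hp.factorization_pow]
        simp [Nat.factorization_eq_zero_of_not_dvd hpm]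
      have hcompl : ordCompl[p] q = m := by
        rw [hfac, hqe]
        exact Nat.mul_div_cancel_left m (pow_pos hp.pos k)
      refine ⟨p, hp, ?_, fun n hn => h n ?_⟩
      · rw [hqe]
        exact (dvd_pow_self p hk.ne').mul_right m
      · rw [hcompl] at hn
        rw [← ZMod.natCast_eq_zero_iff]
        push_cast
        rw [hn]
        ring

end Pool.Agent.Results.MP_274814_nt.FalseForAlmostAllQ
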