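import Pool.Agent.Results.MP_274814_nt.ShortIntervals
import Pool.Agent.N84.MD.G

/-!
# The Lang–Rohrlich conjecture: `π` and `Γ(a_1 / q), …, Γ(a_n / q)` for all the numerators near `q y`

Let `𝒟` be a set of integers with at most `T ^ (κ + o(1))` elements up to `T`, and let `ω_0, ω_1, …` be complex numbers.
For all `y` in `ℝ^n` outside of a set of Hausdorff dimension at most `(n - 1 + κ) / (1 - l)`, for all large `q` in `𝒟` and
ALL the `n`-tuples `(a_1, …, a_n)` of residues (integers prime to `q` with `1 ≤ a_j < q / 2`) with `|a_j - q y_j| ≤ q ^ l`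
the numbers `π`, `Γ(a_1 / q), …, Γ(a_n / q)` satisfy no polynomial relation of degree at most `d` whose coefficients are
integers of a number field `F` with conjugates of absolute value at most `q ^ A`, and the numbers `Γ(a_j / q)` satisfy no
such relation, not even an approximate one, with coefficients which are combinations of `ω_0, …, ω_(g-1)`. The set of the
exceptional `y` is the same for all `F`, `g`, `d` and `A`. If `l < (1 - κ) / n` then almost all `y` have this property.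

For example (`κ = 0`) `𝒟` can be the set of the powers of a prime number `p`: for almost all `y` in `[0, 1 / 2]^n` and all
large `k` the numbers `π`, `Γ(a_j / p ^ k)` are independent in this sense for all the `a_j` prime to `p` with
`|a_j - p ^ k y_j| ≤ p ^ (l k)`, `l < 1 / n`. If `𝒟` is the set of all positive integers, `κ = 1` and `l < 0`, the theorem
concerns the numerators of the good simultaneous approximations `a / q` of almost every `y`.

The starting theorem `ShortIntervals` bounds, for every large `q`, the number of the bad tuples of residues by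
`C q ^ (n - 1 + ε)`; it does not exclude that there are bad tuples near all the points `q y`. The starting theorem
`EveryNumerator` is about the tuples `a, 2 a, …, n a` modulo `q`. Proof: the Hausdorff-Cantelli lemma
(`Pool.Agent.N84.MD`).
-/

set_option autoImplicit false

open Set Filter MeasureTheory
open scoped ENNReal

namespace Pool.Agent.Results.MP_274814_nt.NearAlmostEveryPoint

open Pool.Agent.Results.MP_274814_nt.ShortIntervals (Residues Good)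

/-- The set of integers `𝒟` has exponent at most `κ`: for all `ε > 0` it has at most `C T ^ (κ + ε)` positive elements up
to `T`, for all `T ≥ 1`. -/
def Exponent (𝒟 : Set ℕ) (κ : ℝ) : Prop :=
  ∀ ε : ℝ, 0 < ε → ∃ C : ℝ, ∀ T : ℕ, 0 < T → ({D : ℕ | D ∈ 𝒟 ∧ 0 < D ∧ D ≤ T}.ncard : ℝ) ≤ C * (T : ℝ) ^ (κ + ε)

/-- For all large `q` in `𝒟` all the tuples `a` of residues modulo `q` with `|a_j - q y_j| ≤ q ^ l` are good, for the
degree `d`, the height `q ^ A` and the measure `q ^ (-B)`. -/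
def AllNear {n g : ℕ} (𝒟 : Set ℕ) (l : ℝ) (F : Type) [Field F] [NumberField F] (ι : F →+* ℂ) (ξ : Fin g → ℂ) (d : ℕ)
    (A B : ℝ) (y : Fin n → ℝ) : Prop :=
  ∃ q₀ : ℕ, ∀ q ∈ 𝒟, q₀ ≤ q → ∀ a : Fin n → ℕ, (∀ j, a j ∈ Residues q) → (∀ j, |(a j : ℝ) - q * y j| ≤ (q : ℝ) ^ l) →
    Good q F ι ξ d A B a

/-- for every large `q` there are few bad tuples -/
theorem few_bad {n : ℕ} (hn : 1 ≤ n) (m g d : ℕ) (A ε : ℝ) (hε : 0 < ε) :
    ∃ (B C : ℝ) (q₀ : ℕ), 0 ≤ C ∧ 1 ≤ q₀ ∧ ∀ q : ℕ, q₀ ≤ q → ∀ (F : Type) [Field F] [NumberField F],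
      Module.finrank ℚ F ≤ m → ∀ (ι : F →+* ℂ) (ξ : Fin g → ℂ),
        {a : Fin n → ℕ | (∀ j, a j ∈ Residues q) ∧ ¬ Good q F ι ξ d A B a}.Finite ∧
        ({a : Fin n → ℕ | (∀ j, a j ∈ Residues q) ∧ ¬ Good q F ι ξ d A B a}.ncard : ℝ) ≤
          C * (q : ℝ) ^ ((n : ℝ) - 1 + ε) := by
  classical
  obtain ⟨B, C, q₁, H⟩ := Pool.Agent.Results.MP_274814_nt.ShortIntervals.result n m g d A ε hε
  refine ⟨B, C * (n * 2), max 1 ⌈q₁⌉₊, by positivity, le_max_left _ _, fun q hq F _ _ hF ι ξ => ?_⟩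
  have hq1 : 1 ≤ q := (le_max_left _ _).trans hq
  have hqr : (1 : ℝ) ≤ q := by exact_mod_cast hq1
  have hqp : (0 : ℝ) < q := by linarith
  have hqq : q₁ ≤ q := (Nat.le_ceil q₁).trans (by exact_mod_cast (le_max_right _ _).trans hq)
  have hLp : 0 < (q : ℝ) ^ (1 - ε) := Real.rpow_pos_of_pos hqp _
  have hqe : 1 ≤ (q : ℝ) ^ ε := Real.one_le_rpow hqr hε.le
  obtain ⟨K, hK⟩ : ∃ K : ℕ, K = ⌊(q : ℝ) ^ ε⌋₊ + 1 := ⟨_, rfl⟩
  have hKle : (K : ℝ) ≤ 2 * (q : ℝ) ^ ε := by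
    rw [hK]
    push_cast
    have := Nat.floor_le (by positivity : 0 ≤ (q : ℝ) ^ ε)
    linarith
  obtain ⟨fl, hfl⟩ : ∃ fl : ℕ → ℕ, fl = fun a : ℕ => ⌊(a : ℝ) / (q : ℝ) ^ (1 - ε)⌋₊ := ⟨_, rfl⟩
  obtain ⟨Y, hY⟩ : ∃ Y : ℕ → Finset ℕ, Y = fun k => (Residues q).filter fun a => fl a = k := ⟨_, rfl⟩
  have hmap : ∀ a ∈ Residues q, fl a ∈ Finset.range K := by
    intro a ha
    rw [Finset.mem_range, hK, hfl]
    refine Nat.lt_succ_of_le (Nat.floor_le_floor ?_)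
    rw [div_le_iff₀ hLp, ← Real.rpow_add hqp, add_sub_cancel, Real.rpow_one]
    have h1 : a < q := Finset.mem_range.1 (Finset.mem_filter.1 ha).1
    exact_mod_cast h1.le
  have hYs : ∀ k, Y k ⊆ Residues q := fun k => by rw [hY]; exact Finset.filter_subset _ _
  have hYd : ∀ k, ∀ a ∈ Y k, ∀ b ∈ Y k, |(a : ℝ) - b| ≤ (q : ℝ) ^ (1 - ε) := by
    intro k a ha b hb
    rw [hY, Finset.mem_filter] at ha hb
    have e1 : ⌊(a : ℝ) / (q : ℝ) ^ (1 - ε)⌋₊ = ⌊(b : ℝ) / (q : ℝ) ^ (1 - ε)⌋₊ := by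
      have := ha.2.trans hb.2.symm
      rwa [hfl] at this
    have ha0 : 0 ≤ (a : ℝ) / (q : ℝ) ^ (1 - ε) := by positivity
    have hb0 : 0 ≤ (b : ℝ) / (q : ℝ) ^ (1 - ε) := by positivity
    have a1 := Nat.floor_le ha0
    have a2 := Nat.lt_floor_add_one ((a : ℝ) / (q : ℝ) ^ (1 - ε))
    have b1 := Nat.floor_le hb0
    have b2 := Nat.lt_floor_add_one ((b : ℝ) / (q : ℝ) ^ (1 - ε))
    rw [e1] at a1 a2
    have h3 : |(a : ℝ) / (q : ℝ) ^ (1 - ε) - (b : ℝ) / (q : ℝ) ^ (1 - ε)| ≤ 1 := by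
      rw [abs_le]
      constructor <;> linarith
    rw [← sub_div, abs_div, abs_of_pos hLp, div_le_one hLp] at h3
    exact h3
  have hYcard : ∑ k ∈ Finset.range K, ((Y k).card : ℝ) ≤ q := by
    have h1 : (Residues q).card = ∑ k ∈ Finset.range K, (Y k).card := by
      rw [hY]
      exact Finset.card_eq_sum_card_fiberwise hmap
    have h2 : (Residues q).card ≤ q := by
      calc (Residues q).card ≤ (Finset.range q).card := Finset.card_filter_le _ _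
        _ = q := Finset.card_range q
    rw [← Nat.cast_sum, ← h1]
    exact_mod_cast h2
  -- cover
  have hsub : {a : Fin n → ℕ | (∀ j, a j ∈ Residues q) ∧ ¬ Good q F ι ξ d A B a} ⊆
      ⋃ p ∈ Fintype.piFinset (fun _ : Fin n => Finset.range K),
        {a : Fin n → ℕ | (∀ j, a j ∈ Y (p j)) ∧ ¬ Good q F ι ξ d A B a} := by
    rintro a ⟨ha, hb⟩
    refine Set.mem_iUnion₂.2 ⟨fun j => fl (a j), Fintype.mem_piFinset.2 fun j => hmap _ (ha j), fun j => ?_, hb⟩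
    rw [hY]
    exact Finset.mem_filter.2 ⟨ha j, rfl⟩
  have hfin1 : ∀ p : Fin n → ℕ, {a : Fin n → ℕ | (∀ j, a j ∈ Y (p j)) ∧ ¬ Good q F ι ξ d A B a}.Finite := by
    intro p
    refine (Finset.finite_toSet (Fintype.piFinset fun j => Y (p j))).subset ?_
    rintro a ⟨ha, -⟩
    exact Finset.mem_coe.2 (Fintype.mem_piFinset.2 ha)
  have hfin : (⋃ p ∈ Fintype.piFinset (fun _ : Fin n => Finset.range K),
        {a : Fin n → ℕ | (∀ j, a j ∈ Y (p j)) ∧ ¬ Good q F ι ξ d A B a}).Finite :=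
    (Finset.finite_toSet _).biUnion fun p _ => hfin1 p
  refine ⟨hfin.subset hsub, ?_⟩
  have hone : ∀ j : Fin n, ∑ p ∈ Fintype.piFinset (fun _ : Fin n => Finset.range K),
      ∏ i ∈ Finset.univ.erase j, ((Y (p i)).card : ℝ) ≤ K * (q : ℝ) ^ (n - 1) := by
    intro j
    calc ∑ p ∈ Fintype.piFinset (fun _ : Fin n => Finset.range K), ∏ i ∈ Finset.univ.erase j, ((Y (p i)).card : ℝ)
        = ∑ p ∈ Fintype.piFinset (fun _ : Fin n => Finset.range K),
            ∏ i, (if i = j then (1 : ℝ) else ((Y (p i)).card : ℝ)) := by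
          refine Finset.sum_congr rfl fun p _ => ?_
          rw [← Finset.mul_prod_erase Finset.univ _ (Finset.mem_univ j), if_pos rfl, one_mul]
          exact Finset.prod_congr rfl fun i hi => (if_neg (Finset.ne_of_mem_erase hi)).symm
      _ = ∏ i, ∑ k ∈ Finset.range K, (if i = j then (1 : ℝ) else ((Y k).card : ℝ)) :=
          (Finset.prod_univ_sum (fun _ : Fin n => Finset.range K)
            (fun i k => if i = j then (1 : ℝ) else ((Y k).card : ℝ))).symm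
      _ = K * ∏ i ∈ Finset.univ.erase j, ∑ k ∈ Finset.range K, ((Y k).card : ℝ) := by
          rw [← Finset.mul_prod_erase Finset.univ _ (Finset.mem_univ j)]
          congr 1
          · simp
          · exact Finset.prod_congr rfl fun i hi => Finset.sum_congr rfl fun k _ =>
              if_neg (Finset.ne_of_mem_erase hi)
      _ ≤ K * ∏ i ∈ Finset.univ.erase j, (q : ℝ) := by
          refine mul_le_mul_of_nonneg_left ?_ (Nat.cast_nonneg _)
          exact Finset.prod_le_prod (fun i _ => Finset.sum_nonneg fun k _ => Nat.cast_nonneg _) fun i _ => hYcard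
      _ = K * (q : ℝ) ^ (n - 1) := by
          rw [Finset.prod_const, Finset.card_erase_of_mem (Finset.mem_univ j), Finset.card_univ, Fintype.card_fin]
  have h1 : ({a : Fin n → ℕ | (∀ j, a j ∈ Residues q) ∧ ¬ Good q F ι ξ d A B a}.ncard : ℝ) ≤
      ∑ p ∈ Fintype.piFinset (fun _ : Fin n => Finset.range K),
        ({a : Fin n → ℕ | (∀ j, a j ∈ Y (p j)) ∧ ¬ Good q F ι ξ d A B a}.ncard : ℝ) := by
    have := (Set.ncard_le_ncard hsub hfin).trans (Finset.set_ncard_biUnion_le _ _)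
    exact_mod_cast this
  have h2 : ∑ p ∈ Fintype.piFinset (fun _ : Fin n => Finset.range K),
        ({a : Fin n → ℕ | (∀ j, a j ∈ Y (p j)) ∧ ¬ Good q F ι ξ d A B a}.ncard : ℝ) ≤
      ∑ p ∈ Fintype.piFinset (fun _ : Fin n => Finset.range K),
        (C : ℝ) * ∑ j, ∏ i ∈ Finset.univ.erase j, ((Y (p i)).card : ℝ) :=
    Finset.sum_le_sum fun p _ => (H q hqq F hF ι ξ (fun j => Y (p j)) (fun j => hYs _) (fun j => hYd _)).1
  refine h1.trans (h2.trans ?_)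
  rw [← Finset.mul_sum, Finset.sum_comm]
  have h3 : ∑ j : Fin n, ∑ p ∈ Fintype.piFinset (fun _ : Fin n => Finset.range K),
      ∏ i ∈ Finset.univ.erase j, ((Y (p i)).card : ℝ) ≤ n * (K * (q : ℝ) ^ (n - 1)) := by
    refine (Finset.sum_le_card_nsmul _ _ _ fun j _ => hone j).trans (le_of_eq ?_)
    rw [nsmul_eq_mul, Finset.card_univ, Fintype.card_fin]
  have h4 : (q : ℝ) ^ ((n : ℝ) - 1 + ε) = (q : ℝ) ^ (n - 1) * (q : ℝ) ^ ε := by
    rw [Real.rpow_add hqp]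
    congr 1
    rw [← Real.rpow_natCast, Nat.cast_sub hn, Nat.cast_one]
  rw [h4]
  have h5 : 0 ≤ (q : ℝ) ^ (n - 1) := by positivity
  calc (C : ℝ) * ∑ j : Fin n, ∑ p ∈ Fintype.piFinset (fun _ : Fin n => Finset.range K),
      ∏ i ∈ Finset.univ.erase j, ((Y (p i)).card : ℝ) ≤ C * (n * (K * (q : ℝ) ^ (n - 1))) :=
        mul_le_mul_of_nonneg_left h3 (Nat.cast_nonneg _)
    _ ≤ C * (n * ((2 * (q : ℝ) ^ ε) * (q : ℝ) ^ (n - 1))) := by
        refine mul_le_mul_of_nonneg_left ?_ (Nat.cast_nonneg _)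
        refine mul_le_mul_of_nonneg_left ?_ (Nat.cast_nonneg _)
        exact mul_le_mul_of_nonneg_right hKle h5
    _ = C * (n * 2) * ((q : ℝ) ^ (n - 1) * (q : ℝ) ^ ε) := by ring

/-- the pairs of a denominator and an exceptional tuple -/
def Bad {n g : ℕ} (𝒟 : Set ℕ) (F : Type) [Field F] [NumberField F] (ι : F →+* ℂ) (ξ : Fin g → ℂ) (d : ℕ) (A B : ℝ)
    (q₀ : ℕ) (T : ℝ) : Set (ℕ × (Fin n → ℕ)) :=
  {v | v.1 ∈ 𝒟 ∧ q₀ ≤ v.1 ∧ (v.1 : ℝ) ≤ T ∧ (∀ j, v.2 j ∈ Residues v.1) ∧ ¬ Good v.1 F ι ξ d A B v.2}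

theorem bad_count {n : ℕ} (hn : 1 ≤ n) (m g d : ℕ) (A ε : ℝ) (hε : 0 < ε) :
    ∃ (B : ℝ) (q₀ : ℕ), 1 ≤ q₀ ∧ ∀ (𝒟 : Set ℕ) (κ : ℝ), 0 ≤ κ → Exponent 𝒟 κ →
      ∀ (F : Type) [Field F] [NumberField F], Module.finrank ℚ F ≤ m → ∀ (ι : F →+* ℂ) (ξ : Fin g → ℂ),
      ∃ C : ℝ, 0 ≤ C ∧ ∀ T : ℝ, 1 ≤ T → (Bad (n := n) 𝒟 F ι ξ d A B q₀ T).Finite ∧
        ((Bad (n := n) 𝒟 F ι ξ d A B q₀ T).ncard : ℝ) ≤ C * T ^ ((n : ℝ) - 1 + κ + ε) := by
  classical
  obtain ⟨B, C, q₀, hC, hq₀, H⟩ := few_bad hn m g d A (ε / 2) (by linarith)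
  have hn' : (1 : ℝ) ≤ n := by exact_mod_cast hn
  refine ⟨B, q₀, hq₀, fun 𝒟 κ hκ h𝒟 F _ _ hF ι ξ => ?_⟩
  obtain ⟨C₁, hC₁⟩ := h𝒟 (ε / 2) (by linarith)
  set θ : ℝ := (n : ℝ) - 1 + ε / 2 with hθ
  have hθ0 : 0 ≤ θ := by linarith
  refine ⟨|C₁| * C, by positivity, fun T hT1 => ?_⟩
  have hT0 : 0 < T := by linarith
  set P : Finset ℕ := (Finset.Icc q₀ ⌊T⌋₊).filter (· ∈ 𝒟) with hP
  let E : ℕ → Set (Fin n → ℕ) := fun q => {a : Fin n → ℕ | (∀ j, a j ∈ Residues q) ∧ ¬ Good q F ι ξ d A B a}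
  have hE : ∀ D ∈ P, (E D).Finite ∧ ((E D).ncard : ℝ) ≤ C * T ^ θ := by
    intro D hD
    rw [hP, Finset.mem_filter, Finset.mem_Icc] at hD
    have hDT : (D : ℝ) ≤ T := (Nat.cast_le.2 hD.1.2).trans (Nat.floor_le hT0.le)
    obtain ⟨h1, h2⟩ := H D hD.1.1 F hF ι ξ
    refine ⟨h1, h2.trans ?_⟩
    exact mul_le_mul_of_nonneg_left (Real.rpow_le_rpow (Nat.cast_nonneg _) hDT hθ0) hC
  have hsub : Bad (n := n) 𝒟 F ι ξ d A B q₀ T ⊆ ⋃ D ∈ P, (fun x => (D, x)) '' E D := by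
    rintro ⟨D, x⟩ ⟨hD, hD0, h1, h2, h3⟩
    simp only at hD hD0 h1 h2 h3
    refine Set.mem_iUnion₂.2 ⟨D, ?_, x, ⟨h2, h3⟩, rfl⟩
    rw [hP, Finset.mem_filter, Finset.mem_Icc]
    exact ⟨⟨hD0, Nat.le_floor h1⟩, hD⟩
  have hfin : (⋃ D ∈ P, (fun x => (D, x)) '' E D).Finite :=
    P.finite_toSet.biUnion fun D hD => (hE D hD).1.image _
  refine ⟨hfin.subset hsub, ?_⟩
  have h1 : ((Bad (n := n) 𝒟 F ι ξ d A B q₀ T).ncard : ℝ) ≤ ∑ D ∈ P, ((E D).ncard : ℝ) := by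
    have h2 : (Bad (n := n) 𝒟 F ι ξ d A B q₀ T).ncard ≤ ∑ D ∈ P, (E D).ncard :=
      ((Set.ncard_le_ncard hsub hfin).trans (Finset.set_ncard_biUnion_le P _)).trans
        (Finset.sum_le_sum fun D hD => Set.ncard_image_le (hE D hD).1)
    exact_mod_cast h2
  have h2 : ∑ D ∈ P, ((E D).ncard : ℝ) ≤ P.card * (C * T ^ θ) := by
    rw [← nsmul_eq_mul]
    exact Finset.sum_le_card_nsmul _ _ _ fun D hD => (hE D hD).2
  have hfl : 0 < ⌊T⌋₊ := Nat.floor_pos.2 hT1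
  have h3 : (P.card : ℝ) ≤ |C₁| * T ^ (κ + ε / 2) := by
    have h4 : P.card ≤ {D : ℕ | D ∈ 𝒟 ∧ 0 < D ∧ D ≤ ⌊T⌋₊}.ncard := by
      rw [← Set.ncard_coe_finset]
      refine Set.ncard_le_ncard ?_ ((Set.finite_Iic ⌊T⌋₊).subset fun D hD => hD.2.2)
      intro D hD
      rw [hP, Finset.coe_filter, Set.mem_ofPred_eq, Finset.mem_Icc] at hD
      exact ⟨hD.2, lt_of_lt_of_le one_pos (hq₀.trans hD.1.1), hD.1.2⟩
    calc (P.card : ℝ) ≤ ({D : ℕ | D ∈ 𝒟 ∧ 0 < D ∧ D ≤ ⌊T⌋₊}.ncard : ℝ) := by exact_mod_cast h4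
      _ ≤ C₁ * (⌊T⌋₊ : ℝ) ^ (κ + ε / 2) := hC₁ _ hfl
      _ ≤ |C₁| * T ^ (κ + ε / 2) := by
        refine mul_le_mul (le_abs_self _) ?_ (by positivity) (abs_nonneg _)
        exact Real.rpow_le_rpow (Nat.cast_nonneg _) (Nat.floor_le hT0.le) (by positivity)
  refine h1.trans (h2.trans ?_)
  have h4 : T ^ ((n : ℝ) - 1 + κ + ε) = T ^ (κ + ε / 2) * T ^ θ := by
    rw [← Real.rpow_add hT0, hθ]
    congr 1
    ring
  calc (P.card : ℝ) * (C * T ^ θ)
      ≤ |C₁| * T ^ (κ + ε / 2) * (C * T ^ θ) := mul_le_mul_of_nonneg_right h3 (by positivity)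
    _ = |C₁| * C * T ^ ((n : ℝ) - 1 + κ + ε) := by
        rw [h4]
        ring

/-- one choice of the parameters -/
theorem piece {n : ℕ} (hn : 1 ≤ n) (m g d : ℕ) (A ε : ℝ) (hε : 0 < ε) :
    ∃ B : ℝ, ∀ (𝒟 : Set ℕ) (κ : ℝ), 0 ≤ κ → Exponent 𝒟 κ →
      ∀ (F : Type) [Field F] [NumberField F], Module.finrank ℚ F ≤ m → ∀ (ι : F →+* ℂ) (ξ : Fin g → ℂ) (l : ℝ), l < 1 →
      dimH {y : Fin n → ℝ | ¬ AllNear 𝒟 l F ι ξ d A B y} ≤ ENNReal.ofReal (((n : ℝ) - 1 + κ + ε) / (1 - l)) := by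
  have hn' : (1 : ℝ) ≤ n := by exact_mod_cast hn
  obtain ⟨B, q₀, hq₀, HB⟩ := bad_count hn m g d A ε hε
  refine ⟨B, fun 𝒟 κ hκ h𝒟 F _ _ hF ι ξ l hl => ?_⟩
  have hsub : {y : Fin n → ℝ | ¬ AllNear 𝒟 l F ι ξ d A B y} ⊆
      {y : Fin n → ℝ | ¬ ∀ᶠ T : ℝ in atTop, ∀ v ∈ Bad (n := n) 𝒟 F ι ξ d A B q₀ T,
        ¬ ∀ i, |y i - (fun (v : ℕ × (Fin n → ℕ)) (i : Fin n) => (v.2 i : ℝ) / v.1) v i| ≤ T ^ (-(1 - l))} := by
    intro y hy
    refine fun hev => hy ?_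
    obtain ⟨T₁, hT₁⟩ := eventually_atTop.1 hev
    obtain ⟨k, hk⟩ := exists_nat_ge T₁
    refine ⟨max k q₀, fun T hT hT0 x hx hx' => ?_⟩
    have hTq : q₀ ≤ T := (le_max_right _ _).trans hT0
    have hT1 : 1 ≤ T := hq₀.trans hTq
    have hTr1 : (1 : ℝ) ≤ T := by exact_mod_cast hT1
    have hTr : (0 : ℝ) < T := by linarith
    have hkT : (k : ℝ) ≤ T := by exact_mod_cast (le_max_left _ _).trans hT0
    by_contra hno
    refine hT₁ T (hk.trans hkT) (T, x) ⟨hT, hTq, le_rfl, hx, hno⟩ fun j => ?_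
    have e : y j - (x j : ℝ) / T = -(((x j : ℝ) - T * y j) / T) := by
      field_simp
      ring
    simp only
    rw [e, abs_neg, abs_div, abs_of_pos hTr, div_le_iff₀ hTr]
    have e2 : (T : ℝ) ^ (-(1 - l)) * T = (T : ℝ) ^ l := by
      rw [← Real.rpow_add_one hTr.ne']
      congr 1
      ring
    rw [e2]
    exact hx' j
  refine le_trans (dimH_mono hsub) ?_
  obtain ⟨C, hC0, hC⟩ := HB 𝒟 κ hκ h𝒟 F hF ι ξ
  exact Pool.Agent.N84.MD.scales (X := Fin n) (S := ℕ × (Fin n → ℕ)) _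
    (Bad (n := n) 𝒟 F ι ξ d A B q₀) (Bad (n := n) 𝒟 F ι ξ d A B q₀) (s := (n : ℝ) - 1 + κ + ε) (τ := 1 - l)
    (by linarith) (by linarith)
    ⟨1, fun T T' _ h1 _ v hv => ⟨hv.1, hv.2.1, hv.2.2.1.trans h1, hv.2.2.2⟩⟩
    ⟨C, hC⟩

/-- there are countably many number fields in `ℂ` -/
theorem countable_fields : Countable {F : IntermediateField ℚ ℂ // FiniteDimensional ℚ F} := by
  classical
  have h0 : Countable {x : ℂ // IsAlgebraic ℚ x} := (Algebraic.countable ℚ ℂ).to_subtype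
  have h1 : (Set.range fun s : Finset {x : ℂ // IsAlgebraic ℚ x} =>
      IntermediateField.adjoin ℚ ((fun x : {x : ℂ // IsAlgebraic ℚ x} => (x : ℂ)) '' (s : Set _))).Countable :=
    Set.countable_range _
  refine Set.Countable.to_subtype (s := {F : IntermediateField ℚ ℂ | FiniteDimensional ℚ F})
    (h1.mono ?_)
  intro F hF
  have hF' : FiniteDimensional ℚ F := hF
  obtain ⟨r, b⟩ : ∃ r : ℕ, Nonempty (Module.Basis (Fin r) ℚ F) := ⟨_, ⟨Module.finBasis ℚ F⟩⟩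
  obtain ⟨b⟩ := b
  have hF2 : IntermediateField.adjoin ℚ (Set.range fun i => ((b i : F) : ℂ)) = F := by
    apply le_antisymm
    · rw [IntermediateField.adjoin_le_iff]
      rintro _ ⟨i, rfl⟩
      exact (b i).2
    · intro x hx
      have h1 := b.sum_repr ⟨x, hx⟩
      have h2 : x = ∑ i, (b.repr ⟨x, hx⟩ i) • ((b i : F) : ℂ) := by
        have h3 := congrArg (algebraMap F ℂ) h1
        rw [map_sum] at h3
        refine h3.symm.trans (Finset.sum_congr rfl fun i _ => ?_)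
        rw [Algebra.smul_def, map_mul, ← IsScalarTower.algebraMap_apply ℚ F ℂ, Algebra.smul_def]
        rfl
      rw [h2]
      exact sum_mem fun i _ => IntermediateField.smul_mem _
        (IntermediateField.subset_adjoin ℚ _ (Set.mem_range_self i))
  have halg : ∀ y : F, IsAlgebraic ℚ (y : ℂ) := fun y =>
    (Algebra.IsAlgebraic.isAlgebraic (R := ℚ) y).algebraMap
  refine ⟨Finset.univ.image fun i => ⟨(b i : ℂ), halg (b i)⟩, ?_⟩
  simp only
  refine Eq.trans ?_ hF2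
  congr 1
  ext y
  simp

/-- **`π` and `Γ(a_1 / q), …, Γ(a_n / q)` for all the numerators near `q y`.** Let `n ≥ 1` and `κ ≥ 0`.
(1) Let `l < 1`, let `𝒟` be a set of exponent at most `κ` and let `ω_0, ω_1, …` be complex numbers. There is a set `E` in
`ℝ^n` of Hausdorff dimension at most `(n - 1 + κ) / (1 - l)` such that for all `y` outside `E`, all number fields `F` in `ℂ`
and all `g`, `d`, `A` there is `B` such that for all large `q` in `𝒟` ALL tuples `a` of residues modulo `q` with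
`|a_j - q y_j| ≤ q ^ l` are good. (2) If `n - 1 + κ < n (1 - l)` then there are numbers `B m g d A` such that for all these
`𝒟` and `ω` almost all `y` have this property with `B = B [F:ℚ] g d A`, for all `F`, `g`, `d`, `A`. -/
theorem result (n : ℕ) (hn : 1 ≤ n) (κ : ℝ) (hκ : 0 ≤ κ) (l : ℝ) :
    (l < 1 → ∀ 𝒟 : Set ℕ, Exponent 𝒟 κ → ∀ ω : ℕ → ℂ,
      ∃ E : Set (Fin n → ℝ), dimH E ≤ ENNReal.ofReal (((n : ℝ) - 1 + κ) / (1 - l)) ∧
        ∀ y, y ∉ E → ∀ (F : IntermediateField ℚ ℂ) [NumberField F] (g d A : ℕ), ∃ B : ℝ,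
          AllNear 𝒟 l F (algebraMap F ℂ) (fun i : Fin g => ω i) d A B y) ∧
    ((n : ℝ) - 1 + κ < n * (1 - l) → ∃ B : ℕ → ℕ → ℕ → ℕ → ℝ, ∀ 𝒟 : Set ℕ, Exponent 𝒟 κ → ∀ ω : ℕ → ℂ,
      ∀ᵐ y : Fin n → ℝ, ∀ (F : IntermediateField ℚ ℂ) [NumberField F] (g d A : ℕ),
        AllNear 𝒟 l F (algebraMap F ℂ) (fun i : Fin g => ω i) d A (B (Module.finrank ℚ F) g d A) y) := by
  classical
  have hn' : (1 : ℝ) ≤ n := by exact_mod_cast hn
  have hcount := countable_fields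
  have hnf : ∀ K : {F : IntermediateField ℚ ℂ // FiniteDimensional ℚ F}, NumberField K.1 := fun K =>
    { to_charZero := inferInstance, to_finiteDimensional := K.2 }
  refine ⟨fun hl 𝒟 h𝒟 ω => ?_, fun hl => ?_⟩
  · have hl' : 0 < 1 - l := by linarith
    refine ⟨⋃ v : {F : IntermediateField ℚ ℂ // FiniteDimensional ℚ F} × ℕ × ℕ × ℕ,
      {y : Fin n → ℝ | ∀ B : ℝ, ¬ @AllNear n v.2.1 𝒟 l v.1.1 _ (hnf v.1) (algebraMap v.1.1 ℂ)
        (fun i : Fin v.2.1 => ω i) v.2.2.1 v.2.2.2 B y}, ?_, ?_⟩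
    · rw [dimH_iUnion]
      refine iSup_le ?_
      rintro ⟨K, g, d, A⟩
      have : NumberField K.1 := hnf K
      refine Pool.Agent.N84.MD.dim_le_of_forall (div_nonneg (by linarith) hl'.le) fun D hD => ?_
      rw [div_lt_iff₀ hl'] at hD
      obtain ⟨B, hB⟩ := piece hn (Module.finrank ℚ K.1) g d A (D * (1 - l) - ((n : ℝ) - 1 + κ)) (by linarith)
      have h1 := hB 𝒟 κ hκ h𝒟 K.1 le_rfl (algebraMap K.1 ℂ) (fun i : Fin g => ω i) l hl
      have h2 : ((n : ℝ) - 1 + κ + (D * (1 - l) - ((n : ℝ) - 1 + κ))) / (1 - l) = D := by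
        field_simp
        ring
      rw [h2] at h1
      exact le_trans (dimH_mono fun y hy => hy B) h1
    · intro y hy F hF g d A
      by_contra hno
      push Not at hno
      exact hy (Set.mem_iUnion.2 ⟨(⟨F, hF.to_finiteDimensional⟩, g, d, A), hno⟩)
  · have hl1 : l < 1 := by
      by_contra hcon
      push Not at hcon
      nlinarith
    have hl' : 0 < 1 - l := by linarith
    obtain ⟨ε, hε⟩ : ∃ ε : ℝ, ε = (n * (1 - l) - ((n : ℝ) - 1 + κ)) / 2 := ⟨_, rfl⟩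
    have hε0 : 0 < ε := by linarith
    choose B hB using fun m g d A : ℕ => piece hn m g d (A : ℝ) ε hε0
    refine ⟨B, fun 𝒟 h𝒟 ω => ?_⟩
    have key : ∀ᵐ y : Fin n → ℝ, ∀ v : {F : IntermediateField ℚ ℂ // FiniteDimensional ℚ F} × ℕ × ℕ × ℕ,
        @AllNear n v.2.1 𝒟 l v.1.1 _ (hnf v.1) (algebraMap v.1.1 ℂ) (fun i : Fin v.2.1 => ω i) v.2.2.1 v.2.2.2
          (B (Module.finrank ℚ v.1.1) v.2.1 v.2.2.1 v.2.2.2) y := by
      rw [ae_all_iff]
      rintro ⟨K, g, d, A⟩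
      have : NumberField K.1 := hnf K
      rw [ae_iff]
      refine Pool.Agent.N84.MD.null_of_dim (hB (Module.finrank ℚ K.1) g d A 𝒟 κ hκ h𝒟 K.1 le_rfl
        (algebraMap K.1 ℂ) (fun i : Fin g => ω i) l hl1) (div_nonneg (by linarith) hl'.le) ?_
      rw [div_lt_iff₀ hl']
      linarith
    filter_upwards [key] with y hy F hF g d A
    exact hy (⟨F, hF.to_finiteDimensional⟩, g, d, A)

end Pool.Agent.Results.MP_274814_nt.NearAlmostEveryPoint
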